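import Pool.Agent.TH771.PN.Thr

/-!
# The `p`-measure of `NP` after few changes of the oracle

`Close G O A` says that for all large `n` the oracles `O` and `A` differ on at most `G n` strings of
length at most `n`. `NullC 1 A X` says that the class `X` of languages has `p`-measure `0` relative
to `A`; `NullC j A X` says the same for null covers computed in time `2 ^ O((log N) ^ j)`.

1. Every oracle can be changed on arbitrarily few strings (`G` tends to infinity as slowly as one
   likes) such that `NP`, and even `PSPACE`, has `p`-measure `0`.
2. Almost every oracle `O` needs infinitely many changes: if `G` does not tend to infinity then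
   relative to all `A` with `Close G O A`, for all `j`, some language in `NP` is random for the null
   covers computed in time `2 ^ O((log N) ^ j)`. And if `G` tends to infinity then the changes in
   1. can be made such that still `NP` is not contained in `coNP/poly`, `PSPACE` not in `PH/poly`,
   and `EXP` not in `PSPACE/poly`.

Idea: the string which is changed is chosen such that the syndrome (for a Hamming code) of a block
of polynomially many strings becomes any given message; the message on the level `s` tells the
gambler the next `3 * (log s + 1)` bits, on strings of length about `log s`, of one language, while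
the block consists of strings of length more than `s`, so that the machines considered cannot
see the change. The lower bound (random languages relative to a random oracle) is from helper93's
library `Pool/Agent/TH93/ML`.
-/

set_option autoImplicit false

namespace Pool.Agent.Results.MP_158ebf_lc.ChangedStrings

open MeasureTheory Filter Pool.Agent.H620R2.Gauge
open Pool.Agent.H628R3.RO (randomOracle)
open Pool.Agent.W900.CH (Close)
open Pool.Agent.TH771.CS (Far)
open Pool.Agent.TH93.ML (NullC)
open Pool.Agent.TH771.PN

theorem result :
    (∀ (O : Oracle) (G : ℕ → ℝ), Tendsto G atTop atTop →
      ∃ A : Oracle, Close G O A ∧ NullC 1 A {L | IsNP A L ∨ IsPSPACE A L}) ∧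
    ∀ᵐ O ∂randomOracle, ∀ G : ℕ → ℝ,
      (¬ Tendsto G atTop atTop → ∀ A : Oracle, Close G O A → ∀ j : ℕ, 1 ≤ j →
        ∃ L, IsNP A L ∧ ¬ NullC j A {L}) ∧
      (Tendsto G atTop atTop → ∃ A : Oracle, Close G O A ∧
        NullC 1 A {L | IsNP A L ∨ IsPSPACE A L} ∧ Far A) := by
  refine ⟨fun O _ hG => exists_nullC O hG, ?_⟩
  filter_upwards [ae_thr] with O h G
  exact ⟨fun hG A hA j hj => big_single ((h G).1 hG A hA) hj, (h G).2⟩

end Pool.Agent.Results.MP_158ebf_lc.ChangedStrings
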