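import Pool.Agent.TH755.PM.Main

/-!
# Relative to a generic oracle, `NP` and `PSPACE` have `p`-dimension zero

`Null poly A X` says that the class `X` of languages has `p`-measure `0` relative to the oracle `A`,
`DimZero A X` that it has `p`-dimension `0` relative to `A`: some density function computed in
polynomial time with oracle `A` has, for every language `L` in `X` and every `s > 0`, the value at
least `2 ^ ((1 - s) * n)` for the first `n` bits of `L`, for infinitely many `n`.

For comeager many oracles `A`, the class `NP`, and even `PSPACE`, has `p`-measure `0` and
`p`-dimension `0` relative to `A`. By a theorem of Kautz and Miltersen, for almost all oracles `A`
(in the sense of measure) `NP` does not have `p`-measure `0` relative to `A`.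

Idea. The gambler asks the oracle whether he shall bet on the next string, and on which bit. He
nearly doubles his capital with every correct prediction in a row, and keeps at least one quarter
of the initial capital after the first wrong one. A generic oracle has infinitely many places
where the questions were answered negatively for a very long time, and where then the questions are
answered positively and with the right predictions for a given machine for a much longer time;
the machine cannot notice this since the questions are exponentially long.
-/

namespace Pool.Agent.Results.MP_158ebf_lc.GenericOracles

open Filter
open Pool.Agent.Helper556.OM Pool.Agent.H552R2.RM Pool.Agent.TH755.PM

theorem result : {χ : List Bool → Bool |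
    Null poly {z | χ z = true} {L | InNP {z | χ z = true} L ∨ InPSPACE {z | χ z = true} L} ∧
    DimZero {z | χ z = true} {L | InNP {z | χ z = true} L ∨ InPSPACE {z | χ z = true} L}} ∈
      residual (List Bool → Bool) := generic

end Pool.Agent.Results.MP_158ebf_lc.GenericOracles
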