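import Pool.Agent.TH755.PM.Main

/-!
# The `p`-measure of `NP` relative to an oracle and an additional oracle

`Null poly A X` says that the class `X` of languages has `p`-measure `0` relative to the oracle `A`
(there is a null cover computed in polynomial time with oracle `A`), `Null quasi A X` says the
same for null covers computed in time `n ^ ((log n) ^ O(1))`; `join T O` is the join of the oracles
`T` and `O`.

Which additional oracles `T` can make `NP` a small class?

1. Not the sets of a given countable family `C`, for example the finite sets or the computable
   sets: there is an oracle `H` such that for all `T ∈ C`, relative to the join of `T` and `H`, the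
   class `NP` does not have `p`-measure `0`; not even `UP ∩ coUP` is null for null covers computed
   in time `n ^ ((log n) ^ O(1))`.
2. But arbitrarily sparse sets: for every oracle `O` and every function `g` which tends to infinity
   there is a set `T` which has, for every `n`, at most `g n` strings of length at most `n`, such
   that relative to the join of `T` and `O` the class `NP`, and even `PSPACE`, has `p`-measure `0`.

Idea of 2. The null cover computes from the oracle on which strings `s_p` it bets and on which
bit: it bets if `1^p ∈ T`, and the bit is `1` if `01^p ∈ T`. The bets come in intervals of
strings of the same length `n`, which is so large that a machine of the class considered cannot ask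
for `1^p` or `01^p` on inputs of length `n`, since `p` is about `2^n`; so the predictions for the
machine can be written into the oracle. An interval of bets is longer than twice the number of
all bets before it, so a gambler who nearly doubles his capital with every correct prediction in a
row, and who keeps at least one quarter of the initial capital after the first wrong one, wins in
this interval enough to make good all losses before.
-/

namespace Pool.Agent.Results.MP_158ebf_lc.SparseAdditionalOracle

open Filter
open Pool.Agent.Helper556.OM Pool.Agent.H552R2.RM Pool.Agent.TH755.PM

theorem result :
    (∀ C : Set (Set (List Bool)), C.Countable → ∃ H : Set (List Bool), ∀ T ∈ C,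
      ¬ Null poly (join T H) {L | InNP (join T H) L} ∧
      ¬ Null quasi (join T H) {L | InUP (join T H) L ∧ InUP (join T H) Lᶜ}) ∧
    ∀ (O : Set (List Bool)) (g : ℕ → ℕ), Tendsto g atTop atTop → ∃ T : Set (List Bool),
      (∀ n, {z ∈ T | z.length ≤ n}.ncard ≤ g n) ∧
      Null poly (join T O) {L | InNP (join T O) L ∨ InPSPACE (join T O) L} := by
  refine ⟨fun C hC => ?_, exists_sparse⟩
  obtain ⟨H, hH⟩ := exists_hidden C hC
  refine ⟨H, fun T hT => ⟨fun h => hH T hT (null_mono (null_quasi h) ?_),
    fun h => hH T hT (null_mono h ?_)⟩⟩
  · exact fun L hL => up_np hL.1
  · exact fun L hL => ⟨hL.1, hL.2.1⟩

end Pool.Agent.Results.MP_158ebf_lc.SparseAdditionalOracle
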