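import Pool.Agent.TH682.PM.Thm

/-!
# Resource-bounded measure against decision lists over arbitrary subgroups

Polynomial time is Mathlib's `Turing.TM2ComputableInPolyTime`, for functions on bit strings.
`PNull X` says that the set `X` of languages has p-measure `0`: it has a p-null cover.

A decision list over a subgroup `H` of a symmetric group is a nonuniform device for the strings `x`
of one length `n`: a list (of any length) of permutations of `N` points is computed from `x`, and `x`
is accepted if and only if the number of the leading permutations of the list that are in `H` is odd
(the first permutation which is not in `H` decides; a single test `σ (x) ∈ H`, conjunctions of tests,
and the difference hierarchy over them are special cases). The group `H` is arbitrary, and may depend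
on `n` in any way.

Theorem. (1) The set of the languages which, for some polynomial-time `f`, are given by decision
lists `f (x, a)` over some subgroup, with some advice `a` of `n / 20` bits, at infinitely many lengths
`n`, has p-measure `0`.
(2) If some set which is `NP`-hard or `coNP`-hard, under polynomial-time many-one reductions, is given
by decision lists over nonuniform permutation groups whose lists are computed in polynomial time
(with advice of `O(log n)` bits), then `NP` has p-measure `0`.
(3) So if `NP` does not have p-measure `0`, then some language in `NP` is, for every polynomial-time
`f` and all large `n`, not given by the lists `f (x, a)`, with any advice of `n / 20` bits, over any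
subgroup; and there is no hard set as in (2).

Proof. A gambler who has a program for `f` and the advice bets on the strings of length `n` by the
online learner of the subgroup: a table contains permutations which are known to be in `H`, with
different keys (first point which is not fixed, its image), so at most `N ^ 2` of them. The
prediction is the parity of the number of the leading permutations that are sifted to the identity by
the table. If it is wrong, then the next permutation must be in `H`, and it is inserted. The gambler
bets half of the capital on the prediction, and is wrong at most `N ^ 2` times in `2 ^ n` bets, so the
capital at the end of the level is at least `(3 / 2) ^ (2 ^ n - N ^ 2) / 2 ^ (N ^ 2)`. The martingale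
is a mixture of the gamblers with all programs and advice (`2 ^ n` of them at level `n`).
-/

set_option autoImplicit false

namespace Pool.Agent.Results.MP_158ebf_lc.SubgroupLists

open Pool.Agent.NPC Pool.Agent.TH682.EL Pool.Agent.TH682.PM

/-- **Resource-bounded measure against decision lists over arbitrary subgroups.** -/
theorem result :
    PNull {L | OftenList L} ∧
    (∀ A : Set (List Bool), (NPHard A ∨ NPHard Aᶜ) → GroupList A → PNull {L | InNP L}) ∧
    (¬ PNull {L | InNP L} → ∃ L : Set (List Bool), InNP L ∧ ¬ OftenList L) := by
  refine ⟨null_often, fun A hA h => np_null hA h, fun h => ?_⟩
  by_contra hcon
  push Not at hcon
  exact h (null_often.mono fun L hL => hcon L hL)

end Pool.Agent.Results.MP_158ebf_lc.SubgroupLists
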